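import Mathlib
import Pool.Agent.H549R3.M2Final

set_option autoImplicit false

/-!
# Abelian squares of period at least four are avoidable over three letters

There is an infinite ternary word all of whose abelian squares have period at most three (known before:
period at most five).

The word is `f (h^ω)`, where `h` is a 51-uniform endomorphism of an alphabet of eight letters, the
letters being the triples of bits with the weights `x1 (0,1) + x2 (1,1) + x3 (1,0)` in the plane, and `f` is a
301-uniform map to the three letter alphabet. The Parikh vectors of the images depend on the weights
only, so abelian squares descend: modulo a lattice the relevant triples of prefixes are finitely many,
and all of them are checked by the kernel to come from an additive square (or from a square of one of two further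
templates) of the word over eight letters, which has none.
-/

namespace Pool.Agent.Results.MP_1f24c5_co.PeriodFour

/-- There is an infinite word over `{0,1,2}` in which no factor `uv`, with `u` and `v` of equal length at
least `4`, has `u` and `v` containing each letter the same number of times. -/
theorem result :
    ∃ w : ℕ → Fin 3, ∀ i n : ℕ, 4 ≤ n →
      ¬ (∀ a : Fin 3,
          ((Finset.range n).filter (fun k => w (i + k) = a)).card =
          ((Finset.range n).filter (fun k => w (i + n + k) = a)).card) :=
  Pool.Agent.H549R3.M2.Final.main

end Pool.Agent.Results.MP_1f24c5_co.PeriodFour
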